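import Pool.Agent.Q31.EO.TauB

/-! Project EO, job TAU, part c: from natural numbers to real numbers. -/

set_option autoImplicit false
set_option linter.unusedSectionVars false

namespace Pool.Agent.Q31.EO

open Finset Function

variable {ι : Type} [Fintype ι] [DecidableEq ι] {Y : Type}

theorem prod_scale (c : ℝ) (x : ι → ℝ) (k : ι → ℕ) :
    ∏ l, (c * x l) ^ k l = c ^ (∑ l, k l) * ∏ l, x l ^ k l := by
  simp only [mul_pow, prod_mul_distrib, Finset.prod_pow_eq_pow_sum]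

theorem one_add_pow_le' {t : ℝ} (h0 : 0 ≤ t) (h1 : t ≤ 1) (D : ℕ) :
    (1 + t) ^ D ≤ 1 + D * 2 ^ D * t := by
  induction D with
  | zero => simp
  | succ D ih =>
    have h2 : 0 ≤ (D : ℝ) * 2 ^ D * t := by positivity
    have h3 : (1 : ℝ) ≤ 2 ^ (D + 1) := one_le_pow₀ (by norm_num)
    have h4 : t ≤ 2 ^ (D + 1) * t := by nlinarith
    have h5 : (D : ℝ) * 2 ^ D * t * t ≤ (D : ℝ) * 2 ^ D * t := by nlinarith
    push_cast
    calc (1 + t) ^ (D + 1) = (1 + t) ^ D * (1 + t) := pow_succ _ _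
      _ ≤ (1 + D * 2 ^ D * t) * (1 + t) := mul_le_mul_of_nonneg_right ih (by linarith)
      _ = 1 + t + (D : ℝ) * 2 ^ D * t + (D : ℝ) * 2 ^ D * t * t := by ring
      _ ≤ 1 + 2 ^ (D + 1) * t + (D : ℝ) * 2 ^ D * t + (D : ℝ) * 2 ^ D * t := by linarith
      _ = _ := by ring

theorem rpow_facts {m η κ μ : ℝ} {d : ℕ} (hd : 1 ≤ d) (hη : 0 < η) (hκ : κ = min 1 η / d)
    (hm : 1 ≤ m) (hμ : μ = m ^ ((1 : ℝ) / d)) :
    1 ≤ μ ∧ μ⁻¹ ≤ m ^ (-κ) ∧ 1 ≤ ⌊μ⌋₊ ∧ ((⌊μ⌋₊ : ℕ) : ℝ) ^ (-η) ≤ 2 ^ η * m ^ (-κ) := by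
  have hm0 : 0 < m := by linarith
  have hd0 : (0 : ℝ) < d := by exact_mod_cast hd
  have hμ1 : 1 ≤ μ := by
    rw [hμ]
    exact Real.one_le_rpow hm (by positivity)
  have hμ0 : 0 < μ := by linarith
  have e1 : μ⁻¹ ≤ m ^ (-κ) := by
    rw [hμ, ← Real.rpow_neg hm0.le]
    apply Real.rpow_le_rpow_of_exponent_le hm
    rw [hκ, neg_le_neg_iff]
    exact div_le_div_of_nonneg_right (min_le_left _ _) hd0.le
  have e2 : μ ^ (-η) ≤ m ^ (-κ) := by
    rw [hμ, ← Real.rpow_mul hm0.le]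
    apply Real.rpow_le_rpow_of_exponent_le hm
    have h1 : 1 / (d : ℝ) * -η = -(η / d) := by ring
    rw [h1, hκ, neg_le_neg_iff]
    exact div_le_div_of_nonneg_right (min_le_right _ _) hd0.le
  have hm₀1 : 1 ≤ ⌊μ⌋₊ := Nat.le_floor (by exact_mod_cast hμ1)
  have hm₀1' : (1 : ℝ) ≤ ((⌊μ⌋₊ : ℕ) : ℝ) := by exact_mod_cast hm₀1
  have hm₀2 : μ / 2 ≤ ((⌊μ⌋₊ : ℕ) : ℝ) := by
    have := Nat.lt_floor_add_one μ
    linarith
  refine ⟨hμ1, e1, hm₀1, ?_⟩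
  calc ((⌊μ⌋₊ : ℕ) : ℝ) ^ (-η) ≤ (μ / 2) ^ (-η) :=
        Real.rpow_le_rpow_of_nonpos (by positivity) hm₀2 (by linarith)
    _ = 2 ^ η * μ ^ (-η) := by
        rw [Real.div_rpow hμ0.le (by norm_num), Real.rpow_neg (by norm_num : (0 : ℝ) ≤ 2),
          div_inv_eq_mul, mul_comm]
    _ ≤ 2 ^ η * m ^ (-κ) := mul_le_mul_of_nonneg_left e2 (Real.rpow_nonneg (by norm_num) _)

theorem asy_base {S : Set Y} {h : ι → Y → ℝ} {q d : ℕ} {r : ι → ℕ} {R C η : ℝ} (hd : 1 ≤ d)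
    (hR : 0 ≤ R) (hC : 0 ≤ C) (hη : 0 < η) (hh : ∀ l, ∀ y ∈ S, 1 ≤ h l y)
    (hfin : ∀ β : ℝ, {y ∈ S | ∀ l, h l y ≤ β}.Finite)
    (hb : ∀ (b : ι → ℕ) (m : ℕ), 1 ≤ m → (∀ l, m ≤ b l) →
      |GE S h (fun _ => q) (fun l => (b l : ℝ) ^ d) - R * ∏ l, (b l : ℝ) ^ (d * r l)| ≤
        C * (m : ℝ) ^ (-η) * ∏ l, (b l : ℝ) ^ (d * r l)) : Asy S h (fun _ => q) r := by
  obtain ⟨D, hD⟩ : ∃ D : ℕ, D = ∑ l, d * r l := ⟨_, rfl⟩
  have hd0 : (0 : ℝ) < d := by exact_mod_cast hd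
  obtain ⟨κ, hκ⟩ : ∃ κ : ℝ, κ = min 1 η / d := ⟨_, rfl⟩
  have hκ0 : 0 < κ := by
    rw [hκ]
    exact div_pos (lt_min one_pos hη) hd0
  have h2D : (1 : ℝ) ≤ 2 ^ D := one_le_pow₀ (by norm_num)
  have h2η : (0 : ℝ) ≤ 2 ^ η := Real.rpow_nonneg (by norm_num) _
  refine ⟨R, R * (D * 2 ^ D) + C * (2 : ℝ) ^ η * 2 ^ D, κ, hR, by positivity, hκ0,
    fun β m hm hβ => ?_⟩
  have hm0 : 0 < m := by linarith
  have hβ0 : ∀ l, 0 < β l := fun l => hm0.trans_le (hβ l)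
  obtain ⟨x, hx⟩ : ∃ x : ι → ℝ, ∀ l, x l = β l ^ ((1 : ℝ) / d) := ⟨_, fun _ => rfl⟩
  obtain ⟨μ, hμ⟩ : ∃ μ : ℝ, μ = m ^ ((1 : ℝ) / d) := ⟨_, rfl⟩
  obtain ⟨hμ1, e1, hm₀1, e3⟩ := rpow_facts hd hη hκ hm hμ
  have hμ0 : 0 < μ := by linarith
  have hμx : ∀ l, μ ≤ x l := fun l => by
    rw [hμ, hx]
    exact Real.rpow_le_rpow hm0.le (hβ l) (by positivity)
  have hx0 : ∀ l, 0 < x l := fun l => hμ0.trans_le (hμx l)
  have hxd : ∀ l, x l ^ d = β l := fun l => by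
    rw [hx, ← Real.rpow_natCast, ← Real.rpow_mul (hβ0 l).le, one_div_mul_cancel hd0.ne',
      Real.rpow_one]
  obtain ⟨b, hbx⟩ : ∃ b : ι → ℕ, ∀ l, b l = ⌊x l⌋₊ := ⟨_, fun _ => rfl⟩
  have hb1 : ∀ l, (b l : ℝ) ≤ x l := fun l => by
    rw [hbx]
    exact Nat.floor_le (hx0 l).le
  have hb2 : ∀ l, x l ≤ (b l : ℝ) + 1 := fun l => by
    rw [hbx]
    exact (Nat.lt_floor_add_one _).le
  have hb3 : ∀ l, ⌊μ⌋₊ ≤ b l := fun l => by
    rw [hbx]
    exact Nat.floor_le_floor (hμx l)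
  have hb4 : ∀ l, (1 : ℝ) ≤ (b l : ℝ) := fun l => by exact_mod_cast hm₀1.trans (hb3 l)
  have hP : ∏ l, β l ^ r l = ∏ l, x l ^ (d * r l) := by
    apply prod_congr rfl
    intro l _
    rw [pow_mul, hxd]
  rw [hP]
  obtain ⟨P, hPdef⟩ : ∃ P : ℝ, P = ∏ l, x l ^ (d * r l) := ⟨_, rfl⟩
  rw [← hPdef]
  have hP0 : 0 < P := by
    rw [hPdef]
    exact prod_pos fun l _ => pow_pos (hx0 l) _
  have hμi0 : 0 < μ⁻¹ := inv_pos.2 hμ0
  have hμi1 : μ⁻¹ ≤ 1 := inv_le_one_of_one_le₀ hμ1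
  have hxμ : ∀ l, 1 ≤ μ⁻¹ * x l := fun l => by
    calc (1 : ℝ) = μ⁻¹ * μ := (inv_mul_cancel₀ hμ0.ne').symm
      _ ≤ μ⁻¹ * x l := mul_le_mul_of_nonneg_left (hμx l) hμi0.le
  obtain ⟨κm, hκm⟩ : ∃ t : ℝ, t = m ^ (-κ) := ⟨_, rfl⟩
  rw [← hκm] at e1 e3 ⊢
  have hκm0 : 0 < κm := by
    rw [hκm]
    exact Real.rpow_pos_of_pos hm0 _
  obtain ⟨z, hz⟩ : ∃ z : ℝ, z = ((⌊μ⌋₊ : ℕ) : ℝ) ^ (-η) := ⟨_, rfl⟩
  have hz0 : 0 ≤ z := by
    rw [hz]
    exact Real.rpow_nonneg (Nat.cast_nonneg _) _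
  rw [← hz] at e3
  -- lower bound
  have hlow : R * P - (R * (D * 2 ^ D) + C * (2 : ℝ) ^ η * 2 ^ D) * κm * P ≤
      GE S h (fun _ => q) β := by
    have L1 := (abs_le.1 (hb b _ hm₀1 hb3)).1
    rw [← hz] at L1
    have L2 : GE S h (fun _ => q) (fun l => (b l : ℝ) ^ d) ≤ GE S h (fun _ => q) β := by
      apply GE_mono hh hfin _ (fun l => pow_pos (by linarith [hb4 l]) _)
      intro l
      rw [← hxd l]
      exact pow_le_pow_left₀ (Nat.cast_nonneg _) (hb1 l) _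
    obtain ⟨Q, hQ⟩ : ∃ Q : ℝ, Q = ∏ l, (b l : ℝ) ^ (d * r l) := ⟨_, rfl⟩
    rw [← hQ] at L1
    have hQ0 : 0 ≤ Q := by
      rw [hQ]
      exact prod_nonneg fun l _ => by positivity
    have L3 : Q ≤ P := by
      rw [hQ, hPdef]
      apply prod_le_prod (fun l _ => by positivity)
      intro l _
      exact pow_le_pow_left₀ (Nat.cast_nonneg _) (hb1 l) _
    have L4 : (1 - D * μ⁻¹) * P ≤ Q := by
      have h1 : 1 + (D : ℝ) * (-μ⁻¹) ≤ (1 + -μ⁻¹) ^ D :=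
        one_add_mul_le_pow (by linarith) D
      calc (1 - D * μ⁻¹) * P ≤ (1 + -μ⁻¹) ^ D * P :=
            mul_le_mul_of_nonneg_right (by linarith) hP0.le
        _ = ∏ l, ((1 + -μ⁻¹) * x l) ^ (d * r l) := by rw [prod_scale, hD, hPdef]
        _ ≤ Q := by
            rw [hQ]
            apply prod_le_prod
            · intro l _
              apply pow_nonneg
              exact mul_nonneg (by linarith) (hx0 l).le
            · intro l _
              apply pow_le_pow_left₀ (mul_nonneg (by linarith) (hx0 l).le)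
              have := hxμ l
              have := hb2 l
              linarith
    have L5 : R * ((1 - D * μ⁻¹) * P) ≤ R * Q := mul_le_mul_of_nonneg_left L4 hR
    have L6 : C * z * Q ≤ C * (2 ^ η * κm) * P :=
      mul_le_mul (mul_le_mul_of_nonneg_left e3 hC) L3 hQ0 (by positivity)
    have L7 : R * D * P * μ⁻¹ ≤ R * D * P * κm := mul_le_mul_of_nonneg_left e1 (by positivity)
    have L8 : R * D * κm * P ≤ R * D * κm * P * 2 ^ D := le_mul_of_one_le_right (by positivity) h2D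
    have L9 : C * 2 ^ η * κm * P ≤ C * 2 ^ η * κm * P * 2 ^ D :=
      le_mul_of_one_le_right (by positivity) h2D
    linarith
  -- upper bound
  have hupp : GE S h (fun _ => q) β ≤
      R * P + (R * (D * 2 ^ D) + C * (2 : ℝ) ^ η * 2 ^ D) * κm * P := by
    have L1 := (abs_le.1 (hb (fun l => b l + 1) _ hm₀1 (fun l => (hb3 l).trans (Nat.le_succ _)))).2
    rw [← hz] at L1
    push_cast at L1
    have L2 : GE S h (fun _ => q) β ≤ GE S h (fun _ => q) (fun l => ((b l : ℝ) + 1) ^ d) := by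
      apply GE_mono hh hfin _ hβ0
      intro l
      rw [← hxd l]
      exact pow_le_pow_left₀ (hx0 l).le (hb2 l) _
    obtain ⟨Q, hQ⟩ : ∃ Q : ℝ, Q = ∏ l, ((b l : ℝ) + 1) ^ (d * r l) := ⟨_, rfl⟩
    rw [← hQ] at L1
    have hQ0 : 0 ≤ Q := by
      rw [hQ]
      exact prod_nonneg fun l _ => by positivity
    have L3 : Q ≤ (1 + μ⁻¹) ^ D * P := by
      calc Q ≤ ∏ l, ((1 + μ⁻¹) * x l) ^ (d * r l) := by
            rw [hQ]
            apply prod_le_prod (fun l _ => by positivity)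
            intro l _
            apply pow_le_pow_left₀ (by positivity)
            have := hxμ l
            have := hb1 l
            linarith
        _ = (1 + μ⁻¹) ^ D * P := by rw [prod_scale, hD, hPdef]
    have L4 : Q ≤ (1 + D * 2 ^ D * μ⁻¹) * P :=
      L3.trans (mul_le_mul_of_nonneg_right (one_add_pow_le' hμi0.le hμi1 D) hP0.le)
    have L4' : Q ≤ 2 ^ D * P :=
      L3.trans (mul_le_mul_of_nonneg_right (pow_le_pow_left₀ (by positivity) (by linarith) _)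
        hP0.le)
    have L5 : R * Q ≤ R * ((1 + D * 2 ^ D * μ⁻¹) * P) := mul_le_mul_of_nonneg_left L4 hR
    have L6 : C * z * Q ≤ C * (2 ^ η * κm) * (2 ^ D * P) :=
      mul_le_mul (mul_le_mul_of_nonneg_left e3 hC) L4' hQ0 (by positivity)
    have L7 : R * (D * 2 ^ D) * P * μ⁻¹ ≤ R * (D * 2 ^ D) * P * κm :=
      mul_le_mul_of_nonneg_left e1 (by positivity)
    linarith
  rw [abs_le]
  constructor
  · linarith
  · linarith

theorem asy_zero {S : Set Y} {h : ι → Y → ℝ} (hh : ∀ l, ∀ y ∈ S, 1 ≤ h l y)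
    (hfin : ∀ β : ℝ, {y ∈ S | ∀ l, h l y ≤ β}.Finite) {r : ι → ℕ} (N : ℕ) :
    ∀ e : ι → ℕ, ∑ l, e l ≤ N → Asy S h e r → Asy S h (fun _ => 0) r := by
  induction N with
  | zero =>
    intro e he hA
    have h0 : e = fun _ => 0 := by
      funext l
      have h1 : e l ≤ ∑ l, e l := single_le_sum (f := e) (fun _ _ => Nat.zero_le _) (mem_univ l)
      omega
    rwa [h0] at hA
  | succ N ih =>
    intro e he hA
    by_cases h0 : e = fun _ => 0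
    · rwa [h0] at hA
    · obtain ⟨i, hi⟩ : ∃ i, e i ≠ 0 := by
        by_contra hcon
        push Not at hcon
        exact h0 (funext hcon)
      obtain ⟨j, hj⟩ := Nat.exists_eq_succ_of_ne_zero hi
      have hlt : ∑ l, update e i j l < ∑ l, e l := by
        apply sum_lt_sum
        · intro l _
          by_cases hl : l = i
          · subst hl
            rw [update_self]
            omega
          · rw [update_of_ne hl]
        · exact ⟨i, mem_univ i, by rw [update_self]; omega⟩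
      exact ih _ (by omega) (asy_step hh hfin hj hA)

theorem GE_zero {S : Set Y} {h : ι → Y → ℝ}
    (hfin : ∀ β : ℝ, {y ∈ S | ∀ l, h l y ≤ β}.Finite) (β : ι → ℝ) :
    GE S h (fun _ => 0) β = (({y ∈ S | ∀ l, h l y ≤ β l}.ncard : ℕ) : ℝ) := by
  have hf : {y ∈ S | ∀ l, h l y ≤ β l}.Finite := by
    obtain ⟨s, _, hs'⟩ := exists_finset hfin β
    exact s.finite_toSet.subset fun y hy => hs' y hy.1 hy.2
  unfold GE
  rw [finsum_mem_eq_finite_toFinset_sum _ hf, Set.ncard_eq_toFinset_card _ hf]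
  simp

end Pool.Agent.Q31.EO
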