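import Pool.Agent.Q35.EO.Stm2
import Pool.Agent.Q31.EO.TauC

/-! Project EO, job TAU: the theorem. -/

set_option autoImplicit false

namespace Pool.Agent.Q31.EO

open Finset Function

theorem tau : Pool.Agent.Q35.EO.S_TAU := by
  intro ι _ _ Y S h q d r R C η hd _ hR hC hη hh hfin hb
  have hbase : Asy S h (fun _ => q) r := asy_base hd hR hC hη hh hfin hb
  obtain ⟨R', C', η', hR', hC', hη', hfinal⟩ := asy_zero hh hfin _ _ le_rfl hbase
  refine ⟨R', C', η', hR', hC', hη', fun β m hm hβ => ?_⟩
  have := hfinal β m hm hβ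
  rwa [GE_zero hfin] at this

end Pool.Agent.Q31.EO
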