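import Mathlib

/-! Project EO, job TAU, part a: elementary inequalities and the one-step comparison. -/

set_option autoImplicit false
set_option linter.unusedSectionVars false

namespace Pool.Agent.Q31.EO

open Finset Function

/-- the truncated power -/
noncomputable def psi (j : ℕ) (u : ℝ) : ℝ := if 0 ≤ u then u ^ j else 0

theorem pow_up (j : ℕ) {u δ : ℝ} (hu : 0 ≤ u) (hδ : 0 ≤ δ) :
    (u + δ) ^ (j + 1) ≤ u ^ (j + 1) + (j + 1) * δ * (u + δ) ^ j := by
  induction j with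
  | zero => simp
  | succ j ih =>
    have h1 : 0 ≤ u + δ := by linarith
    have h2 : u ^ (j + 1) ≤ (u + δ) ^ (j + 1) := pow_le_pow_left₀ hu (by linarith) _
    have h3 := mul_le_mul_of_nonneg_left ih h1
    have h4 := mul_le_mul_of_nonneg_left h2 hδ
    push_cast
    calc (u + δ) ^ (j + 1 + 1) = (u + δ) * (u + δ) ^ (j + 1) := by ring
      _ ≤ (u + δ) * (u ^ (j + 1) + (j + 1) * δ * (u + δ) ^ j) := h3
      _ = u ^ (j + 1 + 1) + δ * u ^ (j + 1) + (j + 1) * δ * (u + δ) ^ (j + 1) := by ring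
      _ ≤ u ^ (j + 1 + 1) + δ * (u + δ) ^ (j + 1) + (j + 1) * δ * (u + δ) ^ (j + 1) := by linarith
      _ = _ := by ring

theorem pow_low (j : ℕ) {u δ : ℝ} (hu : 0 ≤ u) (hδ : 0 ≤ δ) :
    u ^ (j + 1) + (j + 1) * δ * u ^ j ≤ (u + δ) ^ (j + 1) := by
  induction j with
  | zero => simp
  | succ j ih =>
    have h1 : 0 ≤ u + δ := by linarith
    have h3 := mul_le_mul_of_nonneg_left ih h1
    have h5 : 0 ≤ (j + 1) * δ * (δ * u ^ j) := by positivity
    push_cast
    calc u ^ (j + 1 + 1) + ((j : ℝ) + 1 + 1) * δ * u ^ (j + 1)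
        ≤ u ^ (j + 1 + 1) + ((j : ℝ) + 1 + 1) * δ * u ^ (j + 1) + (j + 1) * δ * (δ * u ^ j) := by
          linarith
      _ = (u + δ) * (u ^ (j + 1) + (j + 1) * δ * u ^ j) := by ring
      _ ≤ (u + δ) * (u + δ) ^ (j + 1) := h3
      _ = _ := by ring

theorem psi_nonneg (j : ℕ) (u : ℝ) : 0 ≤ psi j u := by
  unfold psi
  split_ifs with h
  · positivity
  · exact le_rfl

theorem psi_mono (j : ℕ) {u v : ℝ} (h : u ≤ v) : psi j u ≤ psi j v := by
  unfold psi
  split_ifs with h1 h2 h2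
  · exact pow_le_pow_left₀ h1 h j
  · linarith
  · positivity
  · exact le_rfl

theorem psi_low (j : ℕ) (u : ℝ) {δ : ℝ} (hδ : 0 ≤ δ) :
    (j + 1) * δ * psi j u ≤ psi (j + 1) (u + δ) - psi (j + 1) u := by
  by_cases hu : 0 ≤ u
  · have h1 : 0 ≤ u + δ := by linarith
    unfold psi
    rw [if_pos hu, if_pos h1, if_pos hu]
    have := pow_low j hu hδ
    linarith
  · have h0 : psi j u = 0 := by unfold psi; rw [if_neg hu]
    have h1 : psi (j + 1) u = 0 := by unfold psi; rw [if_neg hu]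
    rw [h0, h1, mul_zero, sub_zero]
    exact psi_nonneg _ _

theorem psi_up (j : ℕ) (u : ℝ) {δ : ℝ} (hδ : 0 ≤ δ) :
    psi (j + 1) (u + δ) - psi (j + 1) u ≤ (j + 1) * δ * psi j (u + δ) := by
  by_cases hu : 0 ≤ u
  · have h1 : 0 ≤ u + δ := by linarith
    unfold psi
    rw [if_pos hu, if_pos h1, if_pos h1]
    have := pow_up j hu hδ
    linarith
  · have h1 : psi (j + 1) u = 0 := by unfold psi; rw [if_neg hu]
    rw [h1, sub_zero]
    by_cases h2 : 0 ≤ u + δ
    · unfold psi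
      rw [if_pos h2, if_pos h2]
      have h3 : u + δ ≤ (j + 1) * δ := by
        have : (0 : ℝ) ≤ j := Nat.cast_nonneg _
        nlinarith
      calc (u + δ) ^ (j + 1) = (u + δ) * (u + δ) ^ j := by ring
        _ ≤ ((j + 1) * δ) * (u + δ) ^ j := mul_le_mul_of_nonneg_right h3 (by positivity)
    · have h3 : psi (j + 1) (u + δ) = 0 := by unfold psi; rw [if_neg h2]
      have h4 : psi j (u + δ) = 0 := by unfold psi; rw [if_neg h2]
      rw [h3, h4, mul_zero]

/-! ### the mean with exponents -/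

variable {ι : Type} [Fintype ι] [DecidableEq ι] {Y : Type}

/-- the term of one `y` -/
noncomputable def ph (h : ι → Y → ℝ) (e : ι → ℕ) (β : ι → ℝ) (y : Y) : ℝ :=
  ∏ l, psi (e l) (Real.log (β l / h l y))

/-- the mean with exponents `e` -/
noncomputable def GE (S : Set Y) (h : ι → Y → ℝ) (e : ι → ℕ) (β : ι → ℝ) : ℝ :=
  ∑ᶠ y ∈ {y ∈ S | ∀ l, h l y ≤ β l}, ∏ l, Real.log (β l / h l y) ^ e l

theorem log_nonneg_iff {β h : ℝ} (hβ : 0 < β) (hh : 0 < h) : 0 ≤ Real.log (β / h) ↔ h ≤ β := by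
  rw [Real.log_nonneg_iff (by positivity), one_le_div hh]

theorem ph_of_le {h : ι → Y → ℝ} {e : ι → ℕ} {β : ι → ℝ} {y : Y} (hβ : ∀ l, 0 < β l)
    (hh : ∀ l, 0 < h l y) (hle : ∀ l, h l y ≤ β l) :
    ph h e β y = ∏ l, Real.log (β l / h l y) ^ e l := by
  unfold ph psi
  apply prod_congr rfl
  intro l _
  rw [if_pos ((log_nonneg_iff (hβ l) (hh l)).2 (hle l))]

theorem ph_of_not {h : ι → Y → ℝ} {e : ι → ℕ} {β : ι → ℝ} {y : Y} (hβ : ∀ l, 0 < β l)
    (hh : ∀ l, 0 < h l y) (hle : ¬ ∀ l, h l y ≤ β l) : ph h e β y = 0 := by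
  push Not at hle
  obtain ⟨l, hl⟩ := hle
  unfold ph psi
  apply prod_eq_zero (mem_univ l)
  rw [if_neg]
  rw [log_nonneg_iff (hβ l) (hh l)]
  linarith

theorem ph_nonneg (h : ι → Y → ℝ) (e : ι → ℕ) (β : ι → ℝ) (y : Y) : 0 ≤ ph h e β y :=
  prod_nonneg fun _ _ => psi_nonneg _ _

theorem ph_mono {h : ι → Y → ℝ} (e : ι → ℕ) {β β' : ι → ℝ} {y : Y} (hβ : ∀ l, 0 < β l)
    (hh : ∀ l, 0 < h l y) (hle : ∀ l, β l ≤ β' l) : ph h e β y ≤ ph h e β' y := by
  unfold ph
  apply prod_le_prod (fun _ _ => psi_nonneg _ _)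
  intro l _
  apply psi_mono
  apply Real.log_le_log (div_pos (hβ l) (hh l))
  exact div_le_div_of_nonneg_right (hle l) (hh l).le

/-- the mean as a finite sum -/
theorem GE_eq {S : Set Y} {h : ι → Y → ℝ} (hh : ∀ l, ∀ y ∈ S, 1 ≤ h l y) (e : ι → ℕ) {β : ι → ℝ}
    (hβ : ∀ l, 0 < β l) {s : Finset Y} (hs : ∀ y ∈ s, y ∈ S)
    (hs' : ∀ y ∈ S, (∀ l, h l y ≤ β l) → y ∈ s) : GE S h e β = ∑ y ∈ s, ph h e β y := by
  classical
  unfold GE
  have h1 : (s.filter fun y => ∀ l, h l y ≤ β l : Finset Y) = {y ∈ S | ∀ l, h l y ≤ β l} := by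
    ext y
    simp only [coe_filter, Set.mem_ofPred_eq]
    exact ⟨fun ⟨a, b⟩ => ⟨hs y a, b⟩, fun ⟨a, b⟩ => ⟨hs' y a b, b⟩⟩
  rw [← h1, finsum_mem_coe_finset, sum_filter]
  apply sum_congr rfl
  intro y hy
  have hpos : ∀ l, 0 < h l y := fun l => by linarith [hh l y (hs y hy)]
  split_ifs with hc
  · exact (ph_of_le hβ hpos hc).symm
  · exact (ph_of_not hβ hpos hc).symm

theorem ph_split (h : ι → Y → ℝ) (e : ι → ℕ) (β : ι → ℝ) (y : Y) (i : ι) :
    ph h e β y = psi (e i) (Real.log (β i / h i y)) *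
      ∏ l ∈ univ.erase i, psi (e l) (Real.log (β l / h l y)) := by
  unfold ph
  rw [mul_prod_erase univ (fun l => psi (e l) (Real.log (β l / h l y))) (mem_univ i)]

/-- the one-step comparison, for one term -/
theorem ph_step {h : ι → Y → ℝ} {e : ι → ℕ} {β : ι → ℝ} {y : Y} {i : ι} {j : ℕ} (hj : e i = j + 1)
    (hβ : ∀ l, 0 < β l) (hh : ∀ l, 0 < h l y) {δ : ℝ} (hδ : 0 ≤ δ) :
    (j + 1) * δ * ph h (update e i j) β y ≤
      ph h e (update β i (β i * Real.exp δ)) y - ph h e β y ∧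
    ph h e (update β i (β i * Real.exp δ)) y - ph h e β y ≤
      (j + 1) * δ * ph h (update e i j) (update β i (β i * Real.exp δ)) y := by
  set u : ℝ := Real.log (β i / h i y) with hu
  set W : ℝ := ∏ l ∈ univ.erase i, psi (e l) (Real.log (β l / h l y)) with hW
  have hW0 : 0 ≤ W := prod_nonneg fun _ _ => psi_nonneg _ _
  have hlog : Real.log (β i * Real.exp δ / h i y) = u + δ := by
    rw [mul_div_right_comm, Real.log_mul (div_pos (hβ i) (hh i)).ne' (Real.exp_pos _).ne',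
      Real.log_exp]
  have e1 : ph h e β y = psi (j + 1) u * W := by rw [ph_split h e β y i, hj]
  have e2 : ph h e (update β i (β i * Real.exp δ)) y = psi (j + 1) (u + δ) * W := by
    rw [ph_split h e _ y i, hj, update_self, hlog]
    congr 1
    apply prod_congr rfl
    intro l hl
    rw [update_of_ne (ne_of_mem_erase hl)]
  have e3 : ph h (update e i j) β y = psi j u * W := by
    rw [ph_split h _ β y i, update_self]
    congr 1
    apply prod_congr rfl
    intro l hl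
    rw [update_of_ne (ne_of_mem_erase hl)]
  have e4 : ph h (update e i j) (update β i (β i * Real.exp δ)) y = psi j (u + δ) * W := by
    rw [ph_split h _ _ y i, update_self, update_self, hlog]
    congr 1
    apply prod_congr rfl
    intro l hl
    rw [update_of_ne (ne_of_mem_erase hl), update_of_ne (ne_of_mem_erase hl)]
  rw [e1, e2, e3, e4]
  have h1 := mul_le_mul_of_nonneg_right (psi_low j u hδ) hW0
  have h2 := mul_le_mul_of_nonneg_right (psi_up j u hδ) hW0
  constructor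
  · linarith
  · linarith

end Pool.Agent.Q31.EO
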