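import Pool.Agent.Q31.EO.TauA

/-! Project EO, job TAU, part b: the Tauberian step for one exponent. -/

set_option autoImplicit false
set_option linter.unusedSectionVars false

namespace Pool.Agent.Q31.EO

open Finset Function

variable {ι : Type} [Fintype ι] [DecidableEq ι] {Y : Type}

/-- the asymptotic statement -/
def Asy (S : Set Y) (h : ι → Y → ℝ) (e : ι → ℕ) (r : ι → ℕ) : Prop :=
  ∃ R C η : ℝ, 0 ≤ R ∧ 0 ≤ C ∧ 0 < η ∧ ∀ (β : ι → ℝ) (m : ℝ), 1 ≤ m → (∀ l, m ≤ β l) →
    |GE S h e β - R * ∏ l, β l ^ r l| ≤ C * m ^ (-η) * ∏ l, β l ^ r l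

theorem exists_finset {S : Set Y} {h : ι → Y → ℝ} (hfin : ∀ β : ℝ, {y ∈ S | ∀ l, h l y ≤ β}.Finite)
    (β : ι → ℝ) : ∃ s : Finset Y, (∀ y ∈ s, y ∈ S) ∧ ∀ y ∈ S, (∀ l, h l y ≤ β l) → y ∈ s := by
  classical
  refine ⟨(hfin (∑ l, |β l|)).toFinset, fun y hy => ?_, fun y hy hle => ?_⟩
  · rw [Set.Finite.mem_toFinset] at hy
    exact hy.1
  · rw [Set.Finite.mem_toFinset]
    refine ⟨hy, fun l => (hle l).trans ((le_abs_self _).trans ?_)⟩
    exact single_le_sum (f := fun l => |β l|) (fun l _ => abs_nonneg _) (mem_univ l)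

theorem GE_mono {S : Set Y} {h : ι → Y → ℝ} (hh : ∀ l, ∀ y ∈ S, 1 ≤ h l y)
    (hfin : ∀ β : ℝ, {y ∈ S | ∀ l, h l y ≤ β}.Finite) (e : ι → ℕ) {β β' : ι → ℝ}
    (hβ : ∀ l, 0 < β l) (hle : ∀ l, β l ≤ β' l) : GE S h e β ≤ GE S h e β' := by
  obtain ⟨s, hs, hs'⟩ := exists_finset hfin β'
  rw [GE_eq hh e hβ hs (fun y hy h1 => hs' y hy fun l => (h1 l).trans (hle l)),
    GE_eq hh e (fun l => (hβ l).trans_le (hle l)) hs hs']
  apply sum_le_sum
  intro y hy
  exact ph_mono e hβ (fun l => by linarith [hh l y (hs y hy)]) hle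

theorem GE_nonneg {S : Set Y} {h : ι → Y → ℝ} (hh : ∀ l, ∀ y ∈ S, 1 ≤ h l y)
    (hfin : ∀ β : ℝ, {y ∈ S | ∀ l, h l y ≤ β}.Finite) (e : ι → ℕ) {β : ι → ℝ}
    (hβ : ∀ l, 0 < β l) : 0 ≤ GE S h e β := by
  obtain ⟨s, hs, hs'⟩ := exists_finset hfin β
  rw [GE_eq hh e hβ hs hs']
  exact sum_nonneg fun y _ => ph_nonneg _ _ _ _

theorem GE_step {S : Set Y} {h : ι → Y → ℝ} (hh : ∀ l, ∀ y ∈ S, 1 ≤ h l y)
    (hfin : ∀ β : ℝ, {y ∈ S | ∀ l, h l y ≤ β}.Finite) {e : ι → ℕ} {β : ι → ℝ} {i : ι} {j : ℕ}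
    (hj : e i = j + 1) (hβ : ∀ l, 0 < β l) {δ : ℝ} (hδ : 0 ≤ δ) :
    (j + 1) * δ * GE S h (update e i j) β ≤
      GE S h e (update β i (β i * Real.exp δ)) - GE S h e β ∧
    GE S h e (update β i (β i * Real.exp δ)) - GE S h e β ≤
      (j + 1) * δ * GE S h (update e i j) (update β i (β i * Real.exp δ)) := by
  set β' : ι → ℝ := update β i (β i * Real.exp δ) with hβ'
  have hle : ∀ l, β l ≤ β' l := by
    intro l
    by_cases hl : l = i
    · subst hl
      rw [hβ', update_self]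
      have := Real.one_le_exp hδ
      nlinarith [hβ l]
    · rw [hβ', update_of_ne hl]
  have hβ'0 : ∀ l, 0 < β' l := fun l => (hβ l).trans_le (hle l)
  obtain ⟨s, hs, hs'⟩ := exists_finset hfin β'
  have hs'' : ∀ y ∈ S, (∀ l, h l y ≤ β l) → y ∈ s := fun y hy h1 =>
    hs' y hy fun l => (h1 l).trans (hle l)
  rw [GE_eq hh _ hβ hs hs'', GE_eq hh _ hβ'0 hs hs', GE_eq hh _ hβ hs hs'',
    GE_eq hh _ hβ'0 hs hs', mul_sum, mul_sum, ← sum_sub_distrib]
  have hst : ∀ y ∈ s, _ := fun y hy =>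
    ph_step (h := h) (y := y) hj hβ (fun l => by linarith [hh l y (hs y hy)]) hδ
  exact ⟨sum_le_sum fun y hy => (hst y hy).1, sum_le_sum fun y hy => (hst y hy).2⟩

theorem prod_update (β : ι → ℝ) (r : ι → ℕ) (i : ι) (c : ℝ) :
    ∏ l, (update β i (β i * c)) l ^ r l = c ^ r i * ∏ l, β l ^ r l := by
  rw [← mul_prod_erase univ (fun l => (update β i (β i * c)) l ^ r l) (mem_univ i),
    ← mul_prod_erase univ (fun l => β l ^ r l) (mem_univ i), update_self]
  have h1 : ∏ l ∈ univ.erase i, (update β i (β i * c)) l ^ r l = ∏ l ∈ univ.erase i, β l ^ r l := by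
    apply prod_congr rfl
    intro l hl
    rw [update_of_ne (ne_of_mem_erase hl)]
  rw [h1]
  ring

theorem exp_bounds {x a : ℝ} (hx : 0 ≤ x) (hxa : x ≤ a) :
    Real.exp x - 1 ≤ x + x ^ 2 * Real.exp a ∧ x - x ^ 2 ≤ 1 - Real.exp (-x) ∧
      Real.exp x ≤ Real.exp a := by
  have h0 : Real.exp x ≤ Real.exp a := Real.exp_le_exp.2 hxa
  have h1 : 1 - x ≤ Real.exp (-x) := Real.one_sub_le_exp_neg x
  have hpos : 0 < Real.exp x := Real.exp_pos x
  have hmul : Real.exp x * Real.exp (-x) = 1 := by rw [← Real.exp_add]; simp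
  -- `exp x - 1 ≤ x exp x`
  have h2 : Real.exp x - 1 ≤ x * Real.exp x := by nlinarith
  have h3 : Real.exp x - 1 - x ≤ x ^ 2 * Real.exp x := by
    have h4 : x * (Real.exp x - 1) ≤ x * (x * Real.exp x) := mul_le_mul_of_nonneg_left h2 hx
    nlinarith
  refine ⟨?_, ?_, h0⟩
  · have : x ^ 2 * Real.exp x ≤ x ^ 2 * Real.exp a := mul_le_mul_of_nonneg_left h0 (sq_nonneg x)
    linarith
  · -- `x exp (-x) ≤ 1 - exp (-x)`
    have h5 : x + 1 ≤ Real.exp x := Real.add_one_le_exp x
    have h6 : 0 < Real.exp (-x) := Real.exp_pos _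
    have h7 : (x + 1) * Real.exp (-x) ≤ 1 := by
      calc (x + 1) * Real.exp (-x) ≤ Real.exp x * Real.exp (-x) :=
            mul_le_mul_of_nonneg_right h5 h6.le
        _ = 1 := hmul
    have h8 : x * (1 - x) ≤ x * Real.exp (-x) := mul_le_mul_of_nonneg_left h1 hx
    nlinarith

/-- the Tauberian step -/
theorem asy_step {S : Set Y} {h : ι → Y → ℝ} (hh : ∀ l, ∀ y ∈ S, 1 ≤ h l y)
    (hfin : ∀ β : ℝ, {y ∈ S | ∀ l, h l y ≤ β}.Finite) {e r : ι → ℕ} {i : ι} {j : ℕ}
    (hj : e i = j + 1) (hA : Asy S h e r) : Asy S h (update e i j) r := by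
  obtain ⟨R, C, η, hR, hC, hη, hb⟩ := hA
  set ρ : ℝ := (r i : ℝ) with hρ
  have hρ0 : 0 ≤ ρ := Nat.cast_nonneg _
  set J : ℝ := (j : ℝ) + 1 with hJ
  have hJ1 : 1 ≤ J := by
    have : (0 : ℝ) ≤ j := Nat.cast_nonneg _
    linarith
  have hJ0 : 0 < J := by linarith
  set R' : ℝ := R * ρ / J with hR'
  have hR'0 : 0 ≤ R' := by positivity
  set E : ℝ := Real.exp ρ with hE
  have hE1 : 1 ≤ E := Real.one_le_exp hρ0
  set C' : ℝ := R * ρ ^ 2 * E + C * (E + 1) + R * ρ ^ 2 + 2 * C * Real.exp η +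
    R' * Real.exp (η / 2) with hC'
  have hC'0 : 0 ≤ C' := by positivity
  refine ⟨R', C', η / 2, hR'0, hC'0, by positivity, fun β m hm hβ => ?_⟩
  have hm0 : 0 < m := by linarith
  have hβ0 : ∀ l, 0 < β l := fun l => hm0.trans_le (hβ l)
  set P : ℝ := ∏ l, β l ^ r l with hP
  have hP0 : 0 < P := prod_pos fun l _ => pow_pos (hβ0 l) _
  set δ : ℝ := m ^ (-(η / 2)) with hδ
  have hδ0 : 0 < δ := Real.rpow_pos_of_pos hm0 _
  have hδ1 : δ ≤ 1 := Real.rpow_le_one_of_one_le_of_nonpos hm (by linarith)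
  have hδ2 : m ^ (-η) = δ * δ := by
    rw [hδ, ← Real.rpow_add hm0]
    congr 1
    ring
  have hx0 : 0 ≤ ρ * δ := by positivity
  have hxρ : ρ * δ ≤ ρ := by nlinarith
  obtain ⟨b1, b2, b3⟩ := exp_bounds hx0 hxρ
  have hG0 : 0 ≤ GE S h (update e i j) β := GE_nonneg hh hfin _ hβ0
  -- the upper bound
  have hupper : GE S h (update e i j) β ≤ (R' + (R * ρ ^ 2 * E + C * (E + 1)) * δ) * P := by
    have h1 := (GE_step hh hfin hj hβ0 hδ0.le).1
    have hβ' : ∀ l, m ≤ (update β i (β i * Real.exp δ)) l := by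
      intro l
      by_cases hl : l = i
      · subst hl
        rw [update_self]
        have := Real.one_le_exp hδ0.le
        nlinarith [hβ l, hβ0 l]
      · rw [update_of_ne hl]
        exact hβ l
    have h2 := (abs_le.1 (hb _ m hm hβ')).2
    have h3 := (abs_le.1 (hb β m hm hβ)).1
    rw [prod_update, ← Real.exp_nat_mul, ← hρ, hδ2] at h2
    rw [hδ2] at h3
    rw [← hJ] at h1
    have h4 : J * δ * GE S h (update e i j) β ≤
        (R * (Real.exp (ρ * δ) - 1) + C * (δ * δ) * (Real.exp (ρ * δ) + 1)) * P := by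
      have : J * δ * GE S h (update e i j) β ≤
        (R * (Real.exp (ρ * δ) * P) + C * (δ * δ) * (Real.exp (ρ * δ) * P)) -
          (R * P - C * (δ * δ) * P) := by linarith
      linarith
    have h5 : R * (Real.exp (ρ * δ) - 1) ≤ R * (ρ * δ + (ρ * δ) ^ 2 * E) :=
      mul_le_mul_of_nonneg_left b1 hR
    have h6 : C * (δ * δ) * (Real.exp (ρ * δ) + 1) ≤ C * (δ * δ) * (E + 1) :=
      mul_le_mul_of_nonneg_left (by linarith) (by positivity)
    have h7 : J * δ * GE S h (update e i j) β ≤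
        δ * ((R * ρ + (R * ρ ^ 2 * E + C * (E + 1)) * δ) * P) := by
      calc _ ≤ (R * (ρ * δ + (ρ * δ) ^ 2 * E) + C * (δ * δ) * (E + 1)) * P :=
            h4.trans (mul_le_mul_of_nonneg_right (add_le_add h5 h6) hP0.le)
        _ = _ := by ring
    have h8 : J * GE S h (update e i j) β ≤ (R * ρ + (R * ρ ^ 2 * E + C * (E + 1)) * δ) * P := by
      refine le_of_mul_le_mul_left ?_ hδ0
      calc δ * (J * GE S h (update e i j) β) = J * δ * GE S h (update e i j) β := by ring
        _ ≤ _ := h7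
    have h9 : R * ρ = J * R' := by rw [hR']; field_simp
    have h10 : (R * ρ ^ 2 * E + C * (E + 1)) * δ ≤ J * ((R * ρ ^ 2 * E + C * (E + 1)) * δ) := by
      have : 0 ≤ (R * ρ ^ 2 * E + C * (E + 1)) * δ := by positivity
      nlinarith
    refine le_of_mul_le_mul_left ?_ hJ0
    calc J * GE S h (update e i j) β ≤ (R * ρ + (R * ρ ^ 2 * E + C * (E + 1)) * δ) * P := h8
      _ ≤ (J * R' + J * ((R * ρ ^ 2 * E + C * (E + 1)) * δ)) * P := by
          apply mul_le_mul_of_nonneg_right _ hP0.le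
          rw [h9]
          linarith
      _ = _ := by ring
  -- the lower bound
  have hlower : (R' - (R * ρ ^ 2 + 2 * C * Real.exp η + R' * Real.exp (η / 2)) * δ) * P ≤
      GE S h (update e i j) β := by
    by_cases hme : Real.exp 1 ≤ m
    · set m₁ : ℝ := m * Real.exp (-1) with hm₁
      have hm₁1 : 1 ≤ m₁ := by
        calc (1 : ℝ) = Real.exp 1 * Real.exp (-1) := by rw [← Real.exp_add]; simp
          _ ≤ m * Real.exp (-1) := mul_le_mul_of_nonneg_right hme (Real.exp_pos _).le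
      have hm₁m : m₁ ≤ m := by
        have : Real.exp (-1) ≤ 1 := Real.exp_le_one_iff.2 (by norm_num)
        rw [hm₁]
        nlinarith
      set γ : ι → ℝ := update β i (β i * Real.exp (-δ)) with hγ
      have hγm : ∀ l, m₁ ≤ γ l := by
        intro l
        by_cases hl : l = i
        · subst hl
          rw [hγ, update_self, hm₁]
          have h1 : Real.exp (-1) ≤ Real.exp (-δ) := Real.exp_le_exp.2 (by linarith)
          exact mul_le_mul (hβ l) h1 (Real.exp_pos _).le (hβ0 l).le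
        · rw [hγ, update_of_ne hl]
          exact hm₁m.trans (hβ l)
      have hγ0 : ∀ l, 0 < γ l := fun l => lt_of_lt_of_le (by linarith) (hγm l)
      have hγβ : update γ i (γ i * Real.exp δ) = β := by
        funext l
        by_cases hl : l = i
        · subst hl
          rw [update_self, hγ, update_self, mul_assoc, ← Real.exp_add]
          simp
        · rw [update_of_ne hl, hγ, update_of_ne hl]
      have h1 := (GE_step hh hfin hj hγ0 hδ0.le).2
      rw [hγβ, ← hJ] at h1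
      have h2 := (abs_le.1 (hb β m₁ hm₁1 (fun l => hm₁m.trans (hβ l)))).1
      have h3 := (abs_le.1 (hb γ m₁ hm₁1 hγm)).2
      have hm₁η : m₁ ^ (-η) = Real.exp η * (δ * δ) := by
        rw [hm₁, Real.mul_rpow hm0.le (Real.exp_pos _).le, hδ2, ← Real.exp_mul]
        rw [mul_comm]
        congr 2
        ring
      rw [hγ, prod_update, ← Real.exp_nat_mul, ← hρ, hm₁η] at h3
      rw [hm₁η] at h2
      rw [← hγ] at h3
      have h4 : (R * (1 - Real.exp (ρ * -δ)) - C * (Real.exp η * (δ * δ)) *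
          (1 + Real.exp (ρ * -δ))) * P ≤ J * δ * GE S h (update e i j) β := by
        have : (R * P - C * (Real.exp η * (δ * δ)) * P) -
            (R * (Real.exp (ρ * -δ) * P) + C * (Real.exp η * (δ * δ)) *
              (Real.exp (ρ * -δ) * P)) ≤ J * δ * GE S h (update e i j) β := by linarith
        linarith
      have e5 : ρ * -δ = -(ρ * δ) := by ring
      rw [e5] at h4
      have h5 : R * (ρ * δ - (ρ * δ) ^ 2) ≤ R * (1 - Real.exp (-(ρ * δ))) :=
        mul_le_mul_of_nonneg_left b2 hR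
      have h6 : C * (Real.exp η * (δ * δ)) * (1 + Real.exp (-(ρ * δ))) ≤
          C * (Real.exp η * (δ * δ)) * 2 := by
        apply mul_le_mul_of_nonneg_left _ (by positivity)
        have : Real.exp (-(ρ * δ)) ≤ 1 := Real.exp_le_one_iff.2 (by linarith)
        linarith
      have h7 : δ * ((R * ρ - (R * ρ ^ 2 + 2 * C * Real.exp η) * δ) * P) ≤
          J * δ * GE S h (update e i j) β := by
        calc δ * ((R * ρ - (R * ρ ^ 2 + 2 * C * Real.exp η) * δ) * P)
            = (R * (ρ * δ - (ρ * δ) ^ 2) - C * (Real.exp η * (δ * δ)) * 2) * P := by ring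
          _ ≤ (R * (1 - Real.exp (-(ρ * δ))) - C * (Real.exp η * (δ * δ)) *
              (1 + Real.exp (-(ρ * δ)))) * P :=
              mul_le_mul_of_nonneg_right (by linarith) hP0.le
          _ ≤ _ := h4
      have h8 : (R * ρ - (R * ρ ^ 2 + 2 * C * Real.exp η) * δ) * P ≤
          J * GE S h (update e i j) β := by
        refine le_of_mul_le_mul_left ?_ hδ0
        calc _ ≤ J * δ * GE S h (update e i j) β := h7
          _ = _ := by ring
      have h9 : R * ρ = J * R' := by rw [hR']; field_simp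
      refine le_of_mul_le_mul_left ?_ hJ0
      refine le_trans ?_ h8
      have h10 : (R * ρ ^ 2 + 2 * C * Real.exp η) * δ ≤
          J * ((R * ρ ^ 2 + 2 * C * Real.exp η + R' * Real.exp (η / 2)) * δ) := by
        have t1 : 0 ≤ (R * ρ ^ 2 + 2 * C * Real.exp η) * δ := by positivity
        have t2 : 0 ≤ R' * Real.exp (η / 2) * δ := by positivity
        nlinarith
      calc J * ((R' - (R * ρ ^ 2 + 2 * C * Real.exp η + R' * Real.exp (η / 2)) * δ) * P)
          = (J * R' - J * ((R * ρ ^ 2 + 2 * C * Real.exp η + R' * Real.exp (η / 2)) * δ)) * P := by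
            ring
        _ ≤ (R * ρ - (R * ρ ^ 2 + 2 * C * Real.exp η) * δ) * P := by
            apply mul_le_mul_of_nonneg_right _ hP0.le
            rw [h9]
            linarith
    · push Not at hme
      have h1 : Real.exp (-(η / 2)) ≤ δ := by
        rw [hδ, Real.rpow_def_of_pos hm0]
        apply Real.exp_le_exp.2
        have h2 : Real.log m ≤ 1 := by
          rw [← Real.log_exp 1]
          exact Real.log_le_log hm0 hme.le
        nlinarith
      have h3 : R' ≤ R' * Real.exp (η / 2) * δ := by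
        have h4 : (1 : ℝ) ≤ Real.exp (η / 2) * δ := by
          calc (1 : ℝ) = Real.exp (η / 2) * Real.exp (-(η / 2)) := by rw [← Real.exp_add]; simp
            _ ≤ Real.exp (η / 2) * δ := mul_le_mul_of_nonneg_left h1 (Real.exp_pos _).le
        calc R' = R' * 1 := (mul_one _).symm
          _ ≤ R' * (Real.exp (η / 2) * δ) := mul_le_mul_of_nonneg_left h4 hR'0
          _ = _ := by ring
      have h5 : R' - (R * ρ ^ 2 + 2 * C * Real.exp η + R' * Real.exp (η / 2)) * δ ≤ 0 := by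
        have t1 : 0 ≤ (R * ρ ^ 2 + 2 * C * Real.exp η) * δ := by positivity
        linarith
      calc _ ≤ 0 := mul_nonpos_of_nonpos_of_nonneg h5 hP0.le
        _ ≤ _ := hG0
  have s1 : 0 ≤ (R * ρ ^ 2 * E + C * (E + 1)) * δ * P := by positivity
  have s2 : 0 ≤ (R * ρ ^ 2 + 2 * C * Real.exp η + R' * Real.exp (η / 2)) * δ * P := by positivity
  rw [abs_le]
  constructor
  · rw [hC']
    linarith
  · rw [hC']
    linarith

end Pool.Agent.Q31.EO
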